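import Pool.Agent.H27.G.R_seed8.Y969.GP.Def

/-!
Project GP, statement V: the Gaussian cutoff.
-/

set_option autoImplicit false

namespace Pool.Agent.Y587.GP

open MeasureTheory Set Complex
open Pool.Agent.Y969.GP

/-- The Gaussian. -/
noncomputable def gs (v : ℝ) : ℝ := Real.exp (-v ^ 2 / 4)

lemma gs_pos (v : ℝ) : 0 < gs v := Real.exp_pos _

lemma gs_eq (v : ℝ) : gs v = Real.exp (-(1 / 4) * v ^ 2) := by
  unfold gs
  congr 1
  ring

lemma gs_int : Integrable gs := by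
  have h := integrable_exp_neg_mul_sq (b := 1 / 4) (by norm_num)
  refine h.congr (Filter.Eventually.of_forall fun v => ?_)
  exact (gs_eq v).symm

lemma gs_cont : Continuous gs := by
  unfold gs
  fun_prop

lemma gs_total : ∫ v, gs v = 2 * √Real.pi := by
  have h := integral_gaussian (1 / 4)
  have e : ∫ v, gs v = ∫ x : ℝ, Real.exp (-(1 / 4) * x ^ 2) :=
    integral_congr_ae (Filter.Eventually.of_forall fun v => gs_eq v)
  rw [e, h]
  rw [show Real.pi / (1 / 4) = 2 ^ 2 * Real.pi by ring, Real.sqrt_mul (by norm_num),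
    Real.sqrt_sq (by norm_num)]

lemma V_eq (x : ℝ) : V x = (2 * √Real.pi)⁻¹ * ∫ v in Ioi (Real.log x), gs v := rfl

lemma c0_pos : (0 : ℝ) < 2 * √Real.pi := by
  have := Real.pi_pos
  positivity

lemma c0_inv_le : (2 * √Real.pi)⁻¹ ≤ 1 := by
  apply inv_le_one_of_one_le₀
  have h1 : 1 ≤ √Real.pi := by
    rw [Real.one_le_sqrt]
    linarith [Real.pi_gt_three]
  linarith

lemma V_nonneg (x : ℝ) : 0 ≤ V x := by
  rw [V_eq]
  have h := c0_pos
  refine mul_nonneg (inv_nonneg.2 h.le) ?_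
  exact setIntegral_nonneg measurableSet_Ioi fun v _ => (gs_pos v).le

lemma V_le_one (x : ℝ) : V x ≤ 1 := by
  rw [V_eq]
  have h := c0_pos
  have h1 : ∫ v in Ioi (Real.log x), gs v ≤ 2 * √Real.pi := by
    rw [← gs_total]
    exact setIntegral_le_integral gs_int (Filter.Eventually.of_forall fun v => (gs_pos v).le)
  calc (2 * √Real.pi)⁻¹ * ∫ v in Ioi (Real.log x), gs v
      ≤ (2 * √Real.pi)⁻¹ * (2 * √Real.pi) := mul_le_mul_of_nonneg_left h1 (inv_nonneg.2 h.le)
    _ = 1 := inv_mul_cancel₀ h.ne'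

lemma tail_deriv (y : ℝ) : HasDerivAt (fun y : ℝ => ∫ v in Ioi y, gs v) (-gs y) y := by
  have h1 : (fun y : ℝ => ∫ v in Ioi y, gs v) =
      fun y : ℝ => (∫ v in Ioi (0 : ℝ), gs v) - ∫ v in (0 : ℝ)..y, gs v := by
    funext y
    have := intervalIntegral.integral_Ioi_sub_Ioi' (a := 0) (b := y) (f := gs) (μ := volume)
      gs_int.integrableOn gs_int.integrableOn
    linarith
  rw [h1]
  have h2 : HasDerivAt (fun y : ℝ => ∫ v in (0 : ℝ)..y, gs v) (gs y) y :=
    intervalIntegral.integral_hasDerivAt_right (gs_int.intervalIntegrable)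
      gs_cont.stronglyMeasurable.stronglyMeasurableAtFilter gs_cont.continuousAt
  exact h2.const_sub _

lemma V_deriv (x : ℝ) (hx : 0 < x) : HasDerivAt V (V1 x) x := by
  have h1 := (tail_deriv (Real.log x)).comp x (Real.hasDerivAt_log hx.ne')
  have h2 := h1.const_mul ((2 * √Real.pi)⁻¹)
  have e : V1 x = (2 * √Real.pi)⁻¹ * (-gs (Real.log x) * x⁻¹) := by
    unfold V1 gs
    rw [div_eq_mul_inv]
    ring
  rw [e]
  exact h2

/-- The second derivative. -/
noncomputable def V2 (x : ℝ) : ℝ :=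
  (2 * √Real.pi)⁻¹ * (gs (Real.log x) * (1 + Real.log x / 2) / x ^ 2)

lemma gs_deriv (v : ℝ) : HasDerivAt gs (gs v * (-v / 2)) v := by
  unfold gs
  have h1 : HasDerivAt (fun v : ℝ => -v ^ 2 / 4) (-v / 2) v := by
    have h2 := ((hasDerivAt_pow 2 v).neg).div_const 4
    refine h2.congr_deriv ?_
    push_cast
    ring
  exact h1.exp

lemma V1_deriv (x : ℝ) (hx : 0 < x) : HasDerivAt V1 (V2 x) x := by
  have h1 := (gs_deriv (Real.log x)).comp x (Real.hasDerivAt_log hx.ne')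
  have h2 := (h1.const_mul ((2 * √Real.pi)⁻¹)).div (hasDerivAt_id x) hx.ne'
  have h3 := h2.neg
  have e : V2 x = -(((2 * √Real.pi)⁻¹ * (gs (Real.log x) * (-Real.log x / 2) * x⁻¹) * id x -
      (2 * √Real.pi)⁻¹ * (gs ∘ Real.log) x * 1) / id x ^ 2) := by
    unfold V2
    simp only [id, Function.comp]
    field_simp
    ring
  rw [e]
  exact h3

lemma exp_bd (l : ℝ) : gs l * (1 + |l| / 2) ≤ 2 := by
  have h1 : gs l * Real.exp (l ^ 2 / 4) = 1 := by
    unfold gs
    rw [← Real.exp_add]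
    rw [show -l ^ 2 / 4 + l ^ 2 / 4 = 0 by ring, Real.exp_zero]
  have h2 : 1 + l ^ 2 / 4 ≤ Real.exp (l ^ 2 / 4) := by
    have := Real.add_one_le_exp (l ^ 2 / 4)
    linarith
  have h3 : |l| ≤ 1 + l ^ 2 / 4 := by
    nlinarith [sq_nonneg (|l| - 2), sq_abs l]
  have h4 : 1 + |l| / 2 ≤ 2 * Real.exp (l ^ 2 / 4) := by nlinarith [sq_nonneg l]
  calc gs l * (1 + |l| / 2) ≤ gs l * (2 * Real.exp (l ^ 2 / 4)) :=
        mul_le_mul_of_nonneg_left h4 (gs_pos l).le
    _ = 2 * (gs l * Real.exp (l ^ 2 / 4)) := by ring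
    _ = 2 := by rw [h1, mul_one]

lemma gs_le_one (l : ℝ) : gs l ≤ 1 := by
  unfold gs
  rw [Real.exp_le_one_iff]
  nlinarith [sq_nonneg l]

lemma part6 (A : ℝ) (hA : 0 ≤ A) : ∃ C : ℝ, 0 < C ∧ ∀ x : ℝ, 0 < x → V x ≤ C * x ^ (-A) := by
  rcases hA.eq_or_lt with rfl | hA0
  · refine ⟨1, one_pos, fun x _ => ?_⟩
    rw [neg_zero, Real.rpow_zero, mul_one]
    exact V_le_one x
  · have h0 := c0_pos
    refine ⟨(2 * √Real.pi)⁻¹ * (Real.exp (A ^ 2) / A), by positivity, fun x hx => ?_⟩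
    rw [V_eq, mul_assoc]
    refine mul_le_mul_of_nonneg_left ?_ (inv_nonneg.2 h0.le)
    have hneg : -A < 0 := by linarith
    have hI : IntegrableOn (fun v : ℝ => Real.exp (A ^ 2) * Real.exp (-A * v))
        (Ioi (Real.log x)) := (integrableOn_exp_mul_Ioi hneg _).const_mul _
    have h1 : ∫ v in Ioi (Real.log x), gs v ≤
        ∫ v in Ioi (Real.log x), Real.exp (A ^ 2) * Real.exp (-A * v) := by
      refine setIntegral_mono gs_int.integrableOn hI fun v => ?_
      unfold gs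
      rw [← Real.exp_add]
      apply Real.exp_le_exp.2
      nlinarith [sq_nonneg (v / 2 - A)]
    refine h1.trans (le_of_eq ?_)
    rw [integral_const_mul, integral_exp_mul_Ioi hneg]
    rw [Real.rpow_def_of_pos hx]
    rw [mul_comm (-A) (Real.log x)]
    field_simp

/-! ### Mellin representation -/

/-- The integrand. -/
noncomputable def FF (σ l : ℝ) (y w : ℝ) : ℂ :=
  cexp ((σ + I * y) ^ 2 - (σ + I * y) * ((w + l : ℝ) : ℂ))

lemma inner_gauss (σ m : ℝ) : ∫ y : ℝ, cexp ((σ + I * y) ^ 2 - (σ + I * y) * (m : ℂ)) =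
    ((√Real.pi * gs m : ℝ) : ℂ) := by
  have h := integral_cexp_quadratic (b := -1) (by simp) (I * (2 * σ - m)) ((σ : ℂ) ^ 2 - σ * m)
  have e1 : ∀ y : ℝ, (σ + I * y : ℂ) ^ 2 - (σ + I * y) * (m : ℂ) =
      -1 * (y : ℂ) ^ 2 + I * (2 * σ - m) * y + ((σ : ℂ) ^ 2 - σ * m) := by
    intro y
    linear_combination (y : ℂ) ^ 2 * Complex.I_sq
  simp only [e1]
  rw [h]
  have e2 : ((Real.pi : ℂ) / - -1) ^ (1 / 2 : ℂ) = ((√Real.pi : ℝ) : ℂ) := by
    rw [neg_neg, div_one, Real.sqrt_eq_rpow, Complex.ofReal_cpow Real.pi_nonneg]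
    norm_num
  have e3 : ((σ : ℂ) ^ 2 - σ * m) - (I * (2 * σ - m)) ^ 2 / (4 * -1) = ((-m ^ 2 / 4 : ℝ) : ℂ) := by
    push_cast
    linear_combination ((2 * (σ : ℂ) - m) ^ 2 / 4) * Complex.I_sq
  rw [e2, e3]
  unfold gs
  push_cast
  ring

lemma FF_norm (σ l y w : ℝ) : ‖FF σ l y w‖ =
    Real.exp (-1 * y ^ 2) * (Real.exp (σ ^ 2 - σ * l) * Real.exp (-σ * w)) := by
  unfold FF
  rw [Complex.norm_exp, ← Real.exp_add, ← Real.exp_add]
  congr 1
  simp [pow_two]
  ring

lemma FF_int (σ l : ℝ) (hσ : 0 < σ) : Integrable (Function.uncurry (FF σ l))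
    ((volume : Measure ℝ).prod (volume.restrict (Ioi (0 : ℝ)))) := by
  have h1 : Integrable (fun y : ℝ => Real.exp (-1 * y ^ 2)) := integrable_exp_neg_mul_sq one_pos
  have h2 : Integrable (fun w : ℝ => Real.exp (σ ^ 2 - σ * l) * Real.exp (-σ * w))
      (volume.restrict (Ioi (0 : ℝ))) :=
    (integrableOn_exp_mul_Ioi (by linarith) 0).const_mul _
  refine (h1.mul_prod h2).mono' ?_ (Filter.Eventually.of_forall fun z => ?_)
  · have hc : Continuous (Function.uncurry (FF σ l)) := by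
      unfold FF Function.uncurry
      fun_prop
    exact hc.aestronglyMeasurable
  · exact (FF_norm σ l z.1 z.2).le

lemma laplace (σ y : ℝ) (hσ : 0 < σ) :
    ∫ w : ℝ in Ioi 0, cexp (-(σ + I * y) * w) = 1 / (σ + I * y : ℂ) := by
  have h : (-(σ + I * y : ℂ)).re < 0 := by
    simp
    exact hσ
  rw [integral_exp_mul_complex_Ioi h, Complex.ofReal_zero, mul_zero, Complex.exp_zero,
    neg_div_neg_eq]

lemma shift_gs (l : ℝ) : ∫ w : ℝ in Ioi 0, gs (w + l) = ∫ v in Ioi l, gs v := by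
  have h := (measurePreserving_add_right (volume : Measure ℝ) l).setIntegral_preimage_emb
    (measurableEmbedding_addRight l) gs (Ioi l)
  rw [Set.preimage_add_const_Ioi, sub_self] at h
  exact h

lemma part7 (σ x : ℝ) (hσ : 0 < σ) : ((V x : ℝ) : ℂ) = ((2 * Real.pi : ℝ) : ℂ)⁻¹ *
    ∫ y : ℝ, cexp (-((σ + I * y) * (Real.log x : ℝ))) * cexp ((σ + I * y) ^ 2) / (σ + I * y) := by
  obtain ⟨l, hl⟩ : ∃ l, l = Real.log x := ⟨_, rfl⟩
  rw [V_eq, ← hl]
  have e1 : ∀ y : ℝ, cexp (-((σ + I * y) * (l : ℝ))) * cexp ((σ + I * y) ^ 2) / (σ + I * y) =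
      ∫ w in Ioi (0 : ℝ), FF σ l y w := by
    intro y
    have e2 : ∀ w : ℝ, FF σ l y w =
        (cexp (-((σ + I * y) * (l : ℝ))) * cexp ((σ + I * y) ^ 2)) *
          cexp (-(σ + I * y) * w) := by
      intro w
      unfold FF
      rw [← Complex.exp_add, ← Complex.exp_add]
      congr 1
      push_cast
      ring
    simp only [e2]
    rw [integral_const_mul, laplace σ y hσ]
    ring
  simp only [e1]
  rw [integral_integral_swap (FF_int σ l hσ)]
  have e3 : ∀ w : ℝ, ∫ y : ℝ, FF σ l y w = ((√Real.pi * gs (w + l) : ℝ) : ℂ) := by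
    intro w
    exact inner_gauss σ (w + l)
  simp only [e3]
  rw [integral_complex_ofReal, integral_const_mul, shift_gs, ← Complex.ofReal_inv, ← Complex.ofReal_mul]
  congr 1
  rw [← mul_assoc]
  congr 1
  have hp : 0 < √Real.pi := Real.sqrt_pos.2 Real.pi_pos
  have hpp : √Real.pi * √Real.pi = Real.pi := Real.mul_self_sqrt Real.pi_nonneg
  field_simp
  nlinarith

theorem t_V : S_V := by
  refine ⟨fun x _ => ⟨V_nonneg x, V_le_one x⟩, V_deriv,
    fun x hx => (V1_deriv x hx).differentiableAt, ⟨2, by norm_num, fun x hx => ⟨?_, ?_⟩⟩, ?_,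
    part6, fun σ x hσ _ => part7 σ x hσ⟩
  · have e : x * V1 x = -((2 * √Real.pi)⁻¹ * gs (Real.log x)) := by
      unfold V1 gs
      field_simp
    rw [e, abs_neg, abs_of_nonneg (mul_nonneg (inv_nonneg.2 c0_pos.le) (gs_pos _).le)]
    have h1 := c0_inv_le
    have h2 := gs_le_one (Real.log x)
    have h3 := (gs_pos (Real.log x)).le
    have h4 : (0 : ℝ) ≤ (2 * √Real.pi)⁻¹ := inv_nonneg.2 c0_pos.le
    nlinarith
  · rw [(V1_deriv x hx).deriv]
    have e : x ^ 2 * V2 x = (2 * √Real.pi)⁻¹ * (gs (Real.log x) * (1 + Real.log x / 2)) := by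
      unfold V2
      field_simp
    have h4 : (0 : ℝ) ≤ (2 * √Real.pi)⁻¹ := inv_nonneg.2 c0_pos.le
    rw [e, abs_mul, abs_of_nonneg h4, abs_mul, abs_of_nonneg (gs_pos _).le]
    have h5 : |1 + Real.log x / 2| ≤ 1 + |Real.log x| / 2 := by
      refine (abs_add_le _ _).trans ?_
      rw [abs_one, abs_div, abs_two]
    have h6 : gs (Real.log x) * |1 + Real.log x / 2| ≤ 2 :=
      (mul_le_mul_of_nonneg_left h5 (gs_pos _).le).trans (exp_bd _)
    have h7 : 0 ≤ gs (Real.log x) * |1 + Real.log x / 2| :=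
      mul_nonneg (gs_pos _).le (abs_nonneg _)
    have h1 := c0_inv_le
    nlinarith
  · have hc : ContinuousOn V2 (Ioi 0) := by
      intro x hx
      have hx' : (0 : ℝ) < x := hx
      have h1 : ContinuousAt Real.log x := Real.continuousAt_log hx'.ne'
      have h2 : ContinuousAt (fun x => gs (Real.log x)) x :=
        ContinuousAt.comp (g := gs) gs_cont.continuousAt h1
      unfold V2
      refine ContinuousAt.continuousWithinAt ?_
      refine continuousAt_const.mul ((h2.mul (continuousAt_const.add (h1.div_const 2))).div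
        (continuousAt_id.pow 2) ?_)
      exact pow_ne_zero 2 hx'.ne'
    exact hc.congr fun x hx => (V1_deriv x hx).deriv

end Pool.Agent.Y587.GP
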